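import Pool.Agent.Q129.HW.WT

/-!
# Job HW-E2 of helper79 (by helper129)
-/

set_option autoImplicit false

open MeasureTheory Filter Topology Set
open scoped ENNReal NNReal Real

namespace Pool.Agent.Q129.HW

open Pool.Agent.Q79.HW

theorem t_E2 : S_E2 := by
  intro p u C hS R₀ hR₀ hfin hhalf
  have hp := hS.hp
  have hp0 : 0 < p := by linarith
  have hp1 : 0 < p - 1 := by linarith
  set q : ℝ := p / (p - 1) with hq
  have hq1 : 0 < q - 1 := by
    have : q - 1 = 1 / (p - 1) := by rw [hq]; field_simp; ring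
    rw [this]; positivity
  have hq0 : 0 < q := by linarith
  have hqp : (q - 1) * p = q := by rw [hq]; field_simp; ring
  have hpq : p.HolderConjugate q := Real.HolderConjugate.conjExponent hp
  set σ : ℝ → ℝ≥0∞ := sg p u with hσ
  have hσm : Measurable σ := sg_meas hS.meas
  have hfin' : ∫⁻ x, σ x ≠ ∞ := by
    have := hfin
    unfold ms at this
    rwa [Measure.restrict_univ] at this
  refine ⟨2 * C * (24 : ℝ≥0) ^ p, fun R hR => ?_⟩
  have hR0 : 0 < R := by linarith
  have hR₀' : 0 < R₀ := by linarith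
  set Ar : Set ℝ := {y : ℝ | 8 * R₀ < |y| ∧ |y| < R} with hAr
  have hArm : MeasurableSet Ar := by
    refine MeasurableSet.inter ?_ ?_
    · exact measurableSet_lt measurable_const (by fun_prop : Measurable fun y : ℝ => |y|)
    · exact measurableSet_lt (by fun_prop : Measurable fun y : ℝ => |y|) measurable_const
  set J : Set ℝ := {x : ℝ | 2 * R < |x| ∧ |x| < 3 * R} with hJ
  have hJo : IsOpen J := (isOpen_lt continuous_const continuous_abs).inter
    (isOpen_lt continuous_abs continuous_const)
  set M : ℝ≥0∞ := ∫⁻ y in Ar, σ y * ENNReal.ofReal |y| ^ q with hM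
  by_cases hM0 : M = 0
  · rw [hM0, ENNReal.zero_rpow_of_pos hp1, mul_zero]
    exact zero_le
  -- the finite version of `σ`
  set s : ℝ → ℝ := fun y => (σ y).toReal with hs
  have hs0 : ∀ y, 0 ≤ s y := fun y => ENNReal.toReal_nonneg
  have hsm : Measurable s := hσm.ennreal_toReal
  have hsle : ∀ y, ENNReal.ofReal (s y) ≤ σ y := fun y => ENNReal.ofReal_toReal_le
  have hsi : Integrable s := integrable_toReal_of_lintegral_ne_top hσm.aemeasurable hfin'
  have hsae : ∀ᵐ y, ENNReal.ofReal (s y) = σ y := by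
    filter_upwards [ae_lt_top hσm hfin'] with y hy
    exact ENNReal.ofReal_toReal hy.ne
  -- the core
  set K₀ : Set ℝ := Icc (-R₀) R₀ with hK₀
  have hK₀m : MeasurableSet K₀ := measurableSet_Icc
  have hKfin : ms σ K₀ ≠ ∞ := by
    refine ne_top_of_le_ne_top hfin ?_
    unfold ms
    exact lintegral_mono_set (subset_univ _)
  have hdisAK : Disjoint Ar K₀ := by
    rw [Set.disjoint_left]
    intro y hy hy2
    have h1 : |y| ≤ R₀ := abs_le.2 ⟨hy2.1, hy2.2⟩
    linarith [hy.1]
  have hsum : ms σ Ar + ms σ K₀ ≤ ms σ univ := by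
    unfold ms
    rw [← lintegral_union hK₀m hdisAK]
    exact lintegral_mono_set (subset_univ _)
  have hAK : ms σ Ar ≤ ms σ K₀ := by
    have h1 : ms σ Ar + ms σ K₀ ≤ ms σ K₀ + ms σ K₀ := by
      refine hsum.trans (hhalf.trans (le_of_eq ?_))
      rw [two_mul]
    exact (ENNReal.add_le_add_iff_right hKfin).1 h1
  have hK0 : ms σ K₀ ≠ 0 := by
    intro h
    apply hM0
    have h1 : ms σ Ar = 0 := le_antisymm (h ▸ hAK) zero_le
    unfold ms at h1
    have h2 : ∀ᵐ y ∂volume.restrict Ar, σ y = 0 := (lintegral_eq_zero_iff hσm).1 h1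
    have h3 : M = ∫⁻ _ in Ar, (0 : ℝ≥0∞) := by
      rw [hM]
      refine lintegral_congr_ae ?_
      filter_upwards [h2] with y hy
      rw [hy, zero_mul]
    rw [h3, lintegral_zero]
  set κ : ℝ := (ms σ K₀).toReal with hκ
  have hκof : ENNReal.ofReal κ = ms σ K₀ := ENNReal.ofReal_toReal hKfin
  have hκ0 : 0 < κ := ENNReal.toReal_pos hK0 hKfin
  -- `g`
  set g : ℝ → ℝ := Ar.indicator fun y => y * (|y| ^ (q - 2) * s y) with hg
  have hgm : Measurable g := by
    refine Measurable.indicator ?_ hArm
    have h1 : Measurable fun y : ℝ => |y| ^ (q - 2) := by fun_prop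
    exact measurable_id.mul (h1.mul hsm)
  have hpos : ∀ y ∈ Ar, 0 < |y| := fun y hy => by linarith [hy.1]
  have hgabs : ∀ y ∈ Ar, |g y| = |y| ^ (q - 1) * s y := by
    intro y hy
    simp only [hg]
    rw [indicator_of_mem hy, abs_mul, abs_mul, abs_of_nonneg (hs0 y),
      abs_of_nonneg (Real.rpow_nonneg (abs_nonneg _) _), ← mul_assoc]
    congr 1
    nth_rewrite 1 [← Real.rpow_one |y|]
    rw [← Real.rpow_add (hpos y hy)]
    congr 1
    ring
  have hgout : ∀ y, y ∉ Ar → g y = 0 := by
    intro y hy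
    simp only [hg]
    exact indicator_of_notMem hy _
  have hgi : Integrable g := by
    refine (hsi.const_mul (R ^ (q - 1))).mono' hgm.aestronglyMeasurable
      (Eventually.of_forall fun y => ?_)
    rw [Real.norm_eq_abs]
    by_cases hy : y ∈ Ar
    · rw [hgabs y hy]
      exact mul_le_mul_of_nonneg_right (Real.rpow_le_rpow (abs_nonneg _) hy.2.le hq1.le) (hs0 y)
    · rw [hgout y hy, abs_zero]
      exact mul_nonneg (by positivity) (hs0 y)
  -- `h`
  set h : ℝ → ℝ := fun y => g y * y with hh
  have hhval : ∀ y ∈ Ar, h y = |y| ^ q * s y := by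
    intro y hy
    simp only [hh, hg]
    rw [indicator_of_mem hy]
    have e1 : y * (|y| ^ (q - 2) * s y) * y = |y| ^ 2 * |y| ^ (q - 2) * s y := by
      rw [sq_abs]; ring
    rw [e1]
    congr 1
    rw [← Real.rpow_natCast |y| 2, ← Real.rpow_add (hpos y hy)]
    congr 1
    push_cast
    ring
  have hhout : ∀ y, y ∉ Ar → h y = 0 := by
    intro y hy
    simp only [hh]
    rw [hgout y hy, zero_mul]
  have hh0 : ∀ y, 0 ≤ h y := by
    intro y
    by_cases hy : y ∈ Ar
    · rw [hhval y hy]
      exact mul_nonneg (Real.rpow_nonneg (abs_nonneg _) _) (hs0 y)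
    · rw [hhout y hy]
  have hhm : Measurable h := hgm.mul measurable_id
  have hhi : Integrable h := by
    refine (hsi.const_mul (R ^ q)).mono' hhm.aestronglyMeasurable
      (Eventually.of_forall fun y => ?_)
    rw [Real.norm_eq_abs, abs_of_nonneg (hh0 y)]
    by_cases hy : y ∈ Ar
    · rw [hhval y hy]
      exact mul_le_mul_of_nonneg_right (Real.rpow_le_rpow (abs_nonneg _) hy.2.le hq0.le) (hs0 y)
    · rw [hhout y hy]
      exact mul_nonneg (by positivity) (hs0 y)
  set Mr : ℝ := ∫ y, h y with hMr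
  have hMrM : ENNReal.ofReal Mr = M := by
    rw [hMr, ofReal_integral_eq_lintegral_ofReal hhi (Eventually.of_forall hh0), hM,
      ← lintegral_indicator hArm]
    refine lintegral_congr_ae ?_
    filter_upwards [hsae] with y hy
    by_cases hyA : y ∈ Ar
    · rw [indicator_of_mem hyA, hhval y hyA, ENNReal.ofReal_mul (Real.rpow_nonneg (abs_nonneg _) _),
        hy, ENNReal.ofReal_rpow_of_pos (hpos y hyA), mul_comm]
    · rw [indicator_of_notMem hyA, hhout y hyA, ENNReal.ofReal_zero]
  have hMrpos : 0 < Mr := by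
    by_contra hcon
    rw [← hMrM, ENNReal.ofReal_eq_zero.2 (not_lt.1 hcon)] at hM0
    exact hM0 rfl
  have hMtop : M ≠ ∞ := by rw [← hMrM]; exact ENNReal.ofReal_ne_top
  -- the `p`-th power of `g`
  have hgp : ∫⁻ y, ENNReal.ofReal |g y| ^ p * u y ≤ M := by
    rw [hM, ← lintegral_indicator hArm]
    refine lintegral_mono fun y => ?_
    by_cases hy : y ∈ Ar
    · rw [indicator_of_mem hy, hgabs y hy, ENNReal.ofReal_mul (Real.rpow_nonneg (abs_nonneg _) _),
        ENNReal.mul_rpow_of_nonneg _ _ hp0.le, ← ENNReal.ofReal_rpow_of_pos (hpos y hy),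
        ← ENNReal.rpow_mul, hqp, mul_assoc, mul_comm (σ y) (_ ^ q)]
      exact mul_le_mul_right ((pw_le hp hS.fin (hsle y) ENNReal.ofReal_ne_top).trans (hsle y)) _
    · rw [hgout y hy, indicator_of_notMem hy]
      simp [ENNReal.zero_rpow_of_pos hp0]
  -- the mean
  set m : ℝ := ∫ y, g y with hm
  have hm1 : |m| ≤ Mr / (8 * R₀) := by
    rw [hm, hMr, ← integral_div, ← Real.norm_eq_abs]
    refine norm_integral_le_of_norm_le (hhi.div_const _) (Eventually.of_forall fun y => ?_)
    rw [Real.norm_eq_abs]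
    by_cases hy : y ∈ Ar
    · rw [hgabs y hy, hhval y hy, le_div_iff₀ (by positivity)]
      have e1 : |y| ^ q = |y| ^ (q - 1) * |y| := by
        nth_rewrite 3 [← Real.rpow_one |y|]
        rw [← Real.rpow_add (hpos y hy)]
        congr 1
        ring
      rw [e1]
      have h2 : 0 ≤ |y| ^ (q - 1) * s y := mul_nonneg (Real.rpow_nonneg (abs_nonneg _) _) (hs0 y)
      calc |y| ^ (q - 1) * s y * (8 * R₀) ≤ |y| ^ (q - 1) * s y * |y| :=
            mul_le_mul_of_nonneg_left hy.1.le h2
        _ = _ := by ring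
    · rw [hgout y hy, hhout y hy]
      simp
  have hm2 : ENNReal.ofReal |m| ^ p ≤ M * ms σ Ar ^ (p - 1) := by
    have h1 : ENNReal.ofReal |m| ≤ ∫⁻ y, ENNReal.ofReal |g y| := by
      have := enorm_integral_le_lintegral_enorm (μ := volume) g
      rw [← ofReal_norm, Real.norm_eq_abs] at this
      refine this.trans (le_of_eq (lintegral_congr fun y => ?_))
      rw [← ofReal_norm, Real.norm_eq_abs]
    have h2 : ∫⁻ y, ENNReal.ofReal |g y| ≤ ∫⁻ y in Ar,
        (ENNReal.ofReal |y| ^ (q - 1) * σ y ^ (1 / p)) * σ y ^ (1 / q) := by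
      rw [← lintegral_indicator hArm]
      refine lintegral_mono fun y => ?_
      by_cases hy : y ∈ Ar
      · rw [indicator_of_mem hy, hgabs y hy, ENNReal.ofReal_mul (Real.rpow_nonneg (abs_nonneg _) _),
          ← ENNReal.ofReal_rpow_of_pos (hpos y hy), mul_assoc]
        have e1 : σ y ^ (1 / p) * σ y ^ (1 / q) = σ y := by
          rw [← ENNReal.rpow_add_of_nonneg _ _ (by positivity) (by positivity)]
          have : 1 / p + 1 / q = 1 := by
            have := hpq.inv_add_inv_eq_one
            rw [one_div, one_div]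
            exact this
          rw [this, ENNReal.rpow_one]
        rw [e1]
        gcongr
        exact hsle y
      · rw [indicator_of_notMem hy, hgout y hy]
        simp
    have h3 := ENNReal.lintegral_mul_le_Lp_mul_Lq (volume.restrict Ar) hpq
      (f := fun y => ENNReal.ofReal |y| ^ (q - 1) * σ y ^ (1 / p)) (g := fun y => σ y ^ (1 / q))
      ((((by fun_prop : Measurable fun y : ℝ => |y|).ennreal_ofReal.pow_const _).mul
        (hσm.pow_const _)).aemeasurable) ((hσm.pow_const _).aemeasurable)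
    have e4 : ∀ y, (ENNReal.ofReal |y| ^ (q - 1) * σ y ^ (1 / p)) ^ p =
        σ y * ENNReal.ofReal |y| ^ q := by
      intro y
      rw [ENNReal.mul_rpow_of_nonneg _ _ hp0.le, ← ENNReal.rpow_mul, ← ENNReal.rpow_mul, hqp,
        one_div_mul_cancel hp0.ne', ENNReal.rpow_one, mul_comm]
    have e5 : ∀ y, (σ y ^ (1 / q)) ^ q = σ y := by
      intro y
      rw [← ENNReal.rpow_mul, one_div_mul_cancel hq0.ne', ENNReal.rpow_one]
    simp only [Pi.mul_apply, e4, e5] at h3
    have h6 : ENNReal.ofReal |m| ≤ M ^ (1 / p) * ms σ Ar ^ (1 / q) := h1.trans (h2.trans h3)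
    calc ENNReal.ofReal |m| ^ p ≤ (M ^ (1 / p) * ms σ Ar ^ (1 / q)) ^ p := by gcongr
      _ = M * ms σ Ar ^ (p - 1) := by
          rw [ENNReal.mul_rpow_of_nonneg _ _ hp0.le, ← ENNReal.rpow_mul, ← ENNReal.rpow_mul,
            one_div_mul_cancel hp0.ne', ENNReal.rpow_one]
          congr 2
          rw [hq]
          field_simp
  -- `k`
  set k : ℝ → ℝ := K₀.indicator fun y => s y / κ with hk
  have hkm : Measurable k := (hsm.div_const κ).indicator hK₀m
  have hkval : ∀ y ∈ K₀, k y = s y / κ := fun y hy => by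
    simp only [hk]
    exact indicator_of_mem hy _
  have hkout : ∀ y, y ∉ K₀ → k y = 0 := fun y hy => by
    simp only [hk]
    exact indicator_of_notMem hy _
  have hk0 : ∀ y, 0 ≤ k y := by
    intro y
    by_cases hy : y ∈ K₀
    · rw [hkval y hy]
      exact div_nonneg (hs0 y) hκ0.le
    · rw [hkout y hy]
  have hki : Integrable k := (hsi.div_const κ).indicator hK₀m
  have hk1 : ∫ y, k y = 1 := by
    have h1 : ENNReal.ofReal (∫ y, k y) = 1 := by
      rw [ofReal_integral_eq_lintegral_ofReal hki (Eventually.of_forall hk0)]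
      have h2 : ∫⁻ y, ENNReal.ofReal (k y) = ∫⁻ y in K₀, σ y / ENNReal.ofReal κ := by
        rw [← lintegral_indicator hK₀m]
        refine lintegral_congr_ae ?_
        filter_upwards [hsae] with y hy
        by_cases hyK : y ∈ K₀
        · rw [indicator_of_mem hyK, hkval y hyK, ENNReal.ofReal_div_of_pos hκ0, hy]
        · rw [indicator_of_notMem hyK, hkout y hyK, ENNReal.ofReal_zero]
      rw [h2]
      simp only [div_eq_mul_inv]
      rw [lintegral_mul_const' _ _ (ENNReal.inv_ne_top.2 (by
        rw [Ne, ENNReal.ofReal_eq_zero, not_le]; exact hκ0))]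
      rw [hκof]
      exact ENNReal.mul_inv_cancel hK0 hKfin
    have h3 : 0 ≤ ∫ y, k y := integral_nonneg hk0
    rw [← ENNReal.ofReal_one] at h1
    exact (ENNReal.ofReal_eq_ofReal_iff h3 zero_le_one).1 h1
  have hkp : ∫⁻ y, ENNReal.ofReal (k y) ^ p * u y ≤ ms σ K₀ ^ (1 - p) := by
    calc ∫⁻ y, ENNReal.ofReal (k y) ^ p * u y ≤
          ∫⁻ y in K₀, (ms σ K₀ ^ p)⁻¹ * σ y := by
          rw [← lintegral_indicator hK₀m]
          refine lintegral_mono fun y => ?_
          by_cases hy : y ∈ K₀
          · rw [indicator_of_mem hy, hkval y hy, ENNReal.ofReal_div_of_pos hκ0, hκof,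
              ENNReal.div_rpow_of_nonneg _ _ hp0.le, ENNReal.div_eq_inv_mul, mul_assoc]
            exact mul_le_mul_right
              ((pw_le hp hS.fin (hsle y) ENNReal.ofReal_ne_top).trans (hsle y)) _
          · rw [indicator_of_notMem hy, hkout y hy]
            simp [ENNReal.zero_rpow_of_pos hp0]
      _ = (ms σ K₀ ^ p)⁻¹ * ms σ K₀ := by
          rw [lintegral_const_mul' _ _ (ENNReal.inv_ne_top.2 (by
            rw [Ne, ENNReal.rpow_eq_zero_iff_of_pos hp0]; exact hK0))]
          rfl
      _ = ms σ K₀ ^ (1 - p) := by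
          rw [sub_eq_add_neg, ENNReal.rpow_add _ _ hK0 hKfin, ENNReal.rpow_one, ENNReal.rpow_neg,
            mul_comm]
  -- supports
  have hdis : ∀ y, g y = 0 ∨ m * k y = 0 := by
    intro y
    by_cases hy : y ∈ Ar
    · right
      rw [hkout y (fun h1 => Set.disjoint_left.1 hdisAK hy h1), mul_zero]
    · left
      exact hgout y hy
  have hJA : ∀ x ∈ J, x ∉ Ar := fun x hx h1 => by linarith [hx.1, h1.2]
  have hJK : ∀ x ∈ J, x ∉ K₀ := fun x hx h1 => by
    have h2 : |x| ≤ R₀ := abs_le.2 ⟨h1.1, h1.2⟩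
    linarith [hx.1]
  have hmk : Integrable fun y => m * k y := hki.const_mul m
  have hf0 : ∀ x ∈ J, g x - m * k x = 0 := by
    intro x hx
    rw [hgout x (hJA x hx), hkout x (hJK x hx), mul_zero, sub_zero]
  have hadm := hS.adm (fun y => g y - m * k y) (hgm.sub (hkm.const_mul m)) (hgi.sub hmk)
    (by rw [integral_sub hgi hmk, integral_const_mul, hk1, mul_one, ← hm, sub_self]) J hJo hf0
  have hlow : ∀ x ∈ J, Mr / (24 * R ^ 2) ≤ |∫ y, (g y - m * k y) / (x - y)| := by
    intro x hx
    have hxc : 0 < |x| := by linarith [hx.1]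
    have hx' : x ≠ 0 := abs_pos.1 hxc
    have hfar : ∀ y, y ∈ Ar ∨ y ∈ K₀ → R ≤ |x - y| := by
      intro y hy
      have h3 : |x| ≤ |x - y| + |y| := by
        have := abs_add_le (x - y) y
        rwa [sub_add_cancel] at this
      rcases hy with hy | hy
      · linarith [hx.1, hy.2]
      · have h2 : |y| ≤ R₀ := abs_le.2 ⟨hy.1, hy.2⟩
        linarith [hx.1]
    have i1 : Integrable fun y => g y / (x - y) := integrable_div hgi hR0 fun y hy => by
      by_cases hyA : y ∈ Ar
      · linarith [hfar y (Or.inl hyA)]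
      · exact hgout y hyA
    have i2 : Integrable fun y => m * k y / (x - y) := integrable_div hmk hR0 fun y hy => by
      by_cases hyA : y ∈ K₀
      · linarith [hfar y (Or.inr hyA)]
      · rw [hkout y hyA, mul_zero]
    have i3 : Integrable fun y => h y / (x - y) := integrable_div hhi hR0 fun y hy => by
      by_cases hyA : y ∈ Ar
      · linarith [hfar y (Or.inl hyA)]
      · exact hhout y hyA
    have i4 : Integrable fun y => k y * y := by
      refine (hki.mul_const R₀).mono' (hkm.mul measurable_id).aestronglyMeasurable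
        (Eventually.of_forall fun y => ?_)
      rw [norm_mul, Real.norm_of_nonneg (hk0 y), Real.norm_eq_abs]
      by_cases hy : y ∈ K₀
      · exact mul_le_mul_of_nonneg_left (abs_le.2 ⟨hy.1, hy.2⟩) (hk0 y)
      · rw [hkout y hy]; simp
    have i5 : Integrable fun y => k y * y / (x - y) := integrable_div i4 hR0 fun y hy => by
      by_cases hyA : y ∈ K₀
      · linarith [hfar y (Or.inr hyA)]
      · rw [hkout y hyA, zero_mul]
    have e1 : ∫ y, (g y - m * k y) / (x - y) =
        (1 / x) * ((∫ y, h y / (x - y)) - m * ∫ y, k y * y / (x - y)) := by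
      have e0 : ∫ y, (g y - m * k y) * (1 / x) = 0 := by
        rw [integral_mul_const, integral_sub hgi hmk, integral_const_mul, hk1, mul_one, ← hm,
          sub_self, zero_mul]
      have e2 : ∫ y, (g y - m * k y) / (x - y) =
          ∫ y, ((g y - m * k y) / (x - y) - (g y - m * k y) * (1 / x)) := by
        have i6 : Integrable fun y => (g y - m * k y) / (x - y) := by
          refine (i1.sub i2).congr (Eventually.of_forall fun y => ?_)
          simp only [Pi.sub_apply]
          ring
        have i7 : Integrable fun y => (g y - m * k y) * (1 / x) := (hgi.sub hmk).mul_const _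
        rw [integral_sub i6 i7, e0, sub_zero]
      rw [e2, ← integral_const_mul m, ← integral_sub i3 (i5.const_mul m), ← integral_const_mul]
      refine integral_congr_ae (Eventually.of_forall fun y => ?_)
      simp only [hh]
      by_cases hy : x - y = 0
      · have hyx : y = x := by linarith
        rw [hyx, hf0 x hx, hgout x (hJA x hx), hkout x (hJK x hx)]
        simp
      · field_simp
        ring
    rw [e1, abs_mul, abs_div, abs_one]
    have a1 : Mr / (4 * R) ≤ |∫ y, h y / (x - y)| := low hhi hh0 hhout (by positivity) i3 (by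
      rcases lt_or_gt_of_ne hx' with h1 | h1
      · right
        intro y hy
        have h2 := hx.1
        have h3 := hx.2
        rw [abs_of_neg h1] at h2 h3
        have h4 := abs_lt.1 hy.2
        constructor <;> linarith [h4.1, h4.2]
      · left
        intro y hy
        have h2 := hx.1
        have h3 := hx.2
        rw [abs_of_pos h1] at h2 h3
        have h4 := abs_lt.1 hy.2
        constructor <;> linarith [h4.1, h4.2])
    have a2 : |∫ y, k y * y / (x - y)| ≤ R₀ / R := by
      refine (upp i4 hR0 fun y hy => ?_).trans ?_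
      · by_cases hyA : y ∈ K₀
        · exact hfar y (Or.inr hyA)
        · exfalso
          apply hy
          rw [hkout y hyA, zero_mul]
      · refine div_le_div_of_nonneg_right ?_ hR0.le
        calc ∫ y, |k y * y| ≤ ∫ y, k y * R₀ := by
              refine integral_mono i4.abs (hki.mul_const R₀) fun y => ?_
              show |k y * y| ≤ k y * R₀
              rw [abs_mul, abs_of_nonneg (hk0 y)]
              by_cases hy : y ∈ K₀
              · exact mul_le_mul_of_nonneg_left (abs_le.2 ⟨hy.1, hy.2⟩) (hk0 y)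
              · rw [hkout y hy]; simp
          _ = R₀ := by rw [integral_mul_const, hk1, one_mul]
    have a3 : Mr / (8 * R) ≤ |(∫ y, h y / (x - y)) - m * ∫ y, k y * y / (x - y)| := by
      have b1 := abs_sub_abs_le_abs_sub (∫ y, h y / (x - y)) (m * ∫ y, k y * y / (x - y))
      rw [abs_mul] at b1
      have b2 : |m| * |∫ y, k y * y / (x - y)| ≤ (Mr / (8 * R₀)) * (R₀ / R) :=
        mul_le_mul hm1 a2 (abs_nonneg _) (by positivity)
      have b3 : (Mr / (8 * R₀)) * (R₀ / R) = Mr / (8 * R) := by field_simp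
      have b4 : Mr / (4 * R) = Mr / (8 * R) + Mr / (8 * R) := by field_simp; ring
      linarith
    calc Mr / (24 * R ^ 2) = 1 / (3 * R) * (Mr / (8 * R)) := by field_simp; ring
      _ ≤ 1 / |x| * (Mr / (8 * R)) := by
          refine mul_le_mul_of_nonneg_right ?_ (by positivity)
          exact one_div_le_one_div_of_le hxc hx.2.le
      _ ≤ _ := mul_le_mul_of_nonneg_left a3 (by positivity)
  have hL : ENNReal.ofReal (Mr / (24 * R ^ 2)) ^ p * ms u J ≤
      ∫⁻ x in J, ENNReal.ofReal |∫ y, (g y - m * k y) / (x - y)| ^ p * u x := by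
    unfold ms
    rw [← lintegral_const_mul' _ _ (ENNReal.rpow_ne_top_of_nonneg hp0.le ENNReal.ofReal_ne_top)]
    refine setLIntegral_mono' hJo.measurableSet fun x hx => ?_
    gcongr
    exact hlow x hx
  have hRt : ∫⁻ x, ENNReal.ofReal |g x - m * k x| ^ p * u x ≤ 2 * M := by
    rw [pow_split hp0 hS.meas hgm (hkm.const_mul m) hdis, two_mul]
    refine add_le_add hgp ?_
    calc ∫⁻ x, ENNReal.ofReal |m * k x| ^ p * u x =
          ∫⁻ x, ENNReal.ofReal |m| ^ p * (ENNReal.ofReal (k x) ^ p * u x) := by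
          refine lintegral_congr fun x => ?_
          rw [abs_mul, abs_of_nonneg (hk0 x), ENNReal.ofReal_mul (abs_nonneg _),
            ENNReal.mul_rpow_of_nonneg _ _ hp0.le, mul_assoc]
      _ = ENNReal.ofReal |m| ^ p * ∫⁻ x, ENNReal.ofReal (k x) ^ p * u x :=
          lintegral_const_mul' _ _ (ENNReal.rpow_ne_top_of_nonneg hp0.le ENNReal.ofReal_ne_top)
      _ ≤ (M * ms σ Ar ^ (p - 1)) * ms σ K₀ ^ (1 - p) := mul_le_mul' hm2 hkp
      _ ≤ (M * ms σ K₀ ^ (p - 1)) * ms σ K₀ ^ (1 - p) := by gcongr
      _ = M := by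
          rw [mul_assoc, ← ENNReal.rpow_add _ _ hK0 hKfin]
          have : p - 1 + (1 - p) = 0 := by ring
          rw [this, ENNReal.rpow_zero, mul_one]
  have h8 : ENNReal.ofReal (1 / (24 * R ^ 2 / Mr)) ^ p * ms u J ≤ C * (2 * M) := by
    rw [one_div_div]
    exact hL.trans (hadm.trans (mul_le_mul_right hRt _))
  have h9 := cancel hp0 (by positivity : 0 < 24 * R ^ 2 / Mr) h8
  calc ms u J * M ^ (p - 1) ≤
        (ENNReal.ofReal (24 * R ^ 2 / Mr) ^ p * (C * (2 * M))) * M ^ (p - 1) := by gcongr
    _ = ((2 * C * (24 : ℝ≥0) ^ p : ℝ≥0) : ℝ≥0∞) * ENNReal.ofReal R ^ (2 * p) *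
          ((M ^ p)⁻¹ * (M * M ^ (p - 1))) := by
        rw [ENNReal.ofReal_div_of_pos hMrpos, ENNReal.div_rpow_of_nonneg _ _ hp0.le, hMrM,
          ENNReal.ofReal_mul (by norm_num), ENNReal.mul_rpow_of_nonneg _ _ hp0.le,
          ENNReal.ofReal_pow hR0.le, ← ENNReal.rpow_natCast, ← ENNReal.rpow_mul,
          ENNReal.div_eq_inv_mul, ENNReal.coe_mul, ENNReal.coe_mul,
          ENNReal.coe_rpow_of_nonneg _ hp0.le]
        have e24 : ENNReal.ofReal 24 = ((24 : ℝ≥0) : ℝ≥0∞) := by
          rw [ENNReal.ofReal]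
          norm_num
        rw [e24]
        push_cast
        ring
    _ = _ := by
        have e7 : M * M ^ (p - 1) = M ^ p := by
          nth_rewrite 1 [← ENNReal.rpow_one M]
          rw [← ENNReal.rpow_add _ _ hM0 hMtop]
          congr 1
          ring
        rw [e7, ENNReal.inv_mul_cancel, mul_one]
        · rw [Ne, ENNReal.rpow_eq_zero_iff_of_pos hp0]
          exact hM0
        · exact ENNReal.rpow_ne_top_of_nonneg hp0.le hMtop

end Pool.Agent.Q129.HW
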