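import Pool.Agent.Q79.HW.StmN

/-!
# Job HW-PT of helper79 (by helper129)
-/

set_option autoImplicit false

open MeasureTheory Filter Topology Set
open scoped ENNReal NNReal Real

namespace Pool.Agent.Q129.HW

open Pool.Agent.Q79.HW

/-- integrability away from the pole -/
lemma integrable_div {g : ℝ → ℝ} (hg : Integrable g) {x r : ℝ} (hr : 0 < r)
    (h : ∀ y, |x - y| < r → g y = 0) : Integrable (fun y => g y / (x - y)) := by
  have hm : Measurable fun y : ℝ => (x - y)⁻¹ := by fun_prop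
  have h1 : Integrable (fun y => ‖g y‖ * r⁻¹) := hg.norm.mul_const _
  refine h1.mono' ?_ (Eventually.of_forall fun y => ?_)
  · simp only [div_eq_mul_inv]
    exact hg.aestronglyMeasurable.mul hm.aestronglyMeasurable
  · rcases lt_or_ge |x - y| r with h2 | h2
    · rw [h y h2]
      simp
    · rw [norm_div, Real.norm_eq_abs (x - y), div_eq_mul_inv]
      refine mul_le_mul_of_nonneg_left ?_ (norm_nonneg _)
      exact inv_anti₀ hr h2

/-- the pole is away from the support -/
lemma pole_away {J I : Set ℝ} (hJ : IsOpen J) (hd : ∀ x ∈ J, x ∉ I) {g : ℝ → ℝ}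
    (hg : ∀ y, y ∉ I → g y = 0) {x : ℝ} (hx : x ∈ J) :
    ∃ r : ℝ, 0 < r ∧ ∀ y, |x - y| < r → g y = 0 := by
  obtain ⟨r, hr, hb⟩ := Metric.isOpen_iff.1 hJ x hx
  refine ⟨r, hr, fun y hy => hg y (hd y (hb ?_))⟩
  rw [Metric.mem_ball, Real.dist_eq, abs_sub_comm]
  exact hy

/-- lower bound for kernels of constant sign -/
lemma low {g : ℝ → ℝ} (hgi : Integrable g) (hg0 : ∀ y, 0 ≤ g y) {I : Set ℝ}
    (hI : ∀ y, y ∉ I → g y = 0) {x D : ℝ} (hD : 0 < D)
    (hint : Integrable (fun y => g y / (x - y)))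
    (h : (∀ y ∈ I, 0 < x - y ∧ x - y ≤ D) ∨ (∀ y ∈ I, 0 < y - x ∧ y - x ≤ D)) :
    (∫ y, g y) / D ≤ |∫ y, g y / (x - y)| := by
  have e1 : (∫ y, g y) / D = ∫ y, g y / D := by rw [integral_div]
  rw [e1]
  rcases h with h | h
  · refine le_trans (integral_mono (hgi.div_const D) hint fun y => ?_) (le_abs_self _)
    by_cases hy : y ∈ I
    · exact div_le_div_of_nonneg_left (hg0 y) (h y hy).1 (h y hy).2
    · simp only [hI y hy, zero_div, le_refl]
  · refine le_trans ?_ (neg_le_abs _)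
    rw [← integral_neg]
    refine integral_mono (hgi.div_const D) hint.neg fun y => ?_
    by_cases hy : y ∈ I
    · have h1 : -(g y / (x - y)) = g y / (y - x) := by
        rw [← div_neg, neg_sub]
      show g y / D ≤ -(g y / (x - y))
      rw [h1]
      exact div_le_div_of_nonneg_left (hg0 y) (h y hy).1 (h y hy).2
    · simp only [hI y hy, zero_div, neg_zero, le_refl]

/-- upper bound far from the support -/
lemma upp {g : ℝ → ℝ} (hgi : Integrable g) {x d : ℝ} (hd : 0 < d)
    (hI : ∀ y, g y ≠ 0 → d ≤ |x - y|) :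
    |∫ y, g y / (x - y)| ≤ (∫ y, |g y|) / d := by
  rw [← integral_div, ← Real.norm_eq_abs]
  refine norm_integral_le_of_norm_le (hgi.abs.div_const d) (Eventually.of_forall fun y => ?_)
  by_cases hy : g y = 0
  · rw [hy]; simp
  · rw [norm_div, Real.norm_eq_abs, Real.norm_eq_abs]
    exact div_le_div_of_nonneg_left (abs_nonneg _) hd (hI y hy)

/-- integral of the `p`-th power of a difference of functions with disjoint supports -/
lemma pow_split {p : ℝ} (hp : 0 < p) {u : ℝ → ℝ≥0∞} (hu : Measurable u) {g k : ℝ → ℝ}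
    (hg : Measurable g) (hk : Measurable k) (hd : ∀ y, g y = 0 ∨ k y = 0) :
    ∫⁻ x, ENNReal.ofReal |g x - k x| ^ p * u x =
      (∫⁻ x, ENNReal.ofReal |g x| ^ p * u x) + ∫⁻ x, ENNReal.ofReal |k x| ^ p * u x := by
  rw [← lintegral_add_left]
  · refine lintegral_congr fun x => ?_
    rcases hd x with h | h
    · rw [h, zero_sub, abs_neg, abs_zero, ENNReal.ofReal_zero, ENNReal.zero_rpow_of_pos hp]
      simp
    · rw [h, sub_zero, abs_zero, ENNReal.ofReal_zero, ENNReal.zero_rpow_of_pos hp]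
      simp
  · exact ((hg.abs.ennreal_ofReal).pow_const p).mul hu

/-- limits from below -/
lemma lim_below {x : ℝ≥0∞} (hx : x ≠ 0) : ∃ s : ℕ → ℝ≥0, (∀ n, 0 < s n) ∧
    (∀ n, (s n : ℝ≥0∞) < x) ∧ Tendsto (fun n => (s n : ℝ≥0∞)) atTop (𝓝 x) := by
  obtain ⟨v, _, hv, ht⟩ := exists_seq_strictMono_tendsto' (pos_iff_ne_zero.2 hx)
  have hne : ∀ n, v n ≠ ∞ := fun n => ((hv n).2.trans_le le_top).ne
  have he : ∀ n, (((v n).toNNReal : ℝ≥0) : ℝ≥0∞) = v n := fun n => ENNReal.coe_toNNReal (hne n)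
  refine ⟨fun n => (v n).toNNReal, fun n => ?_, fun n => ?_, ?_⟩
  · have h1 := (hv n).1
    rw [← he n] at h1
    exact_mod_cast h1
  · show (((v n).toNNReal : ℝ≥0) : ℝ≥0∞) < x
    rw [he n]
    exact (hv n).2
  · simp only [he]
    exact ht

/-- `1/(2D)` cancels -/
lemma cancel {p D : ℝ} (hp : 0 < p) (hD : 0 < D) {X Y : ℝ≥0∞}
    (h : ENNReal.ofReal (1 / D) ^ p * X ≤ Y) : X ≤ ENNReal.ofReal D ^ p * Y := by
  have e : ENNReal.ofReal D ^ p * ENNReal.ofReal (1 / D) ^ p = 1 := by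
    rw [← ENNReal.mul_rpow_of_nonneg _ _ hp.le, ← ENNReal.ofReal_mul hD.le,
      mul_one_div_cancel hD.ne', ENNReal.ofReal_one, ENNReal.one_rpow]
  calc X = ENNReal.ofReal D ^ p * (ENNReal.ofReal (1 / D) ^ p * X) := by
        rw [← mul_assoc, e, one_mul]
    _ ≤ _ := by gcongr

theorem t_PT (hTF : S_TF) : S_PT := by
  intro p u C hS I J K hI hJ hK hIK D hD hIJ hJK
  have hp := hS.hp
  have hp0 : 0 < p := by linarith
  have h1p : 1 - p < 0 := by linarith
  have h2D : 0 < 2 * D := by linarith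
  have hCne : (C : ℝ≥0∞) * ENNReal.ofReal (2 * D) ^ p ≠ 0 := by
    refine mul_ne_zero (by exact_mod_cast hS.hC.ne') ?_
    rw [Ne, ENNReal.rpow_eq_zero_iff_of_pos hp0, ENNReal.ofReal_eq_zero, not_le]
    exact h2D
  have hCtop : (C : ℝ≥0∞) * ENNReal.ofReal (2 * D) ^ p ≠ ∞ :=
    ENNReal.mul_ne_top ENNReal.coe_ne_top
      (ENNReal.rpow_ne_top_of_nonneg hp0.le ENNReal.ofReal_ne_top)
  by_cases hI0 : ms (sg p u) I = 0
  · rw [hI0, ENNReal.zero_rpow_of_neg h1p, top_add, ENNReal.mul_top hCne]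
    exact le_top
  by_cases hK0 : ms (sg p u) K = 0
  · rw [hK0, ENNReal.zero_rpow_of_neg h1p, add_top, ENNReal.mul_top hCne]
    exact le_top
  -- the claim
  have claim : ∀ s t : ℝ≥0, 0 < s → 0 < t → (s : ℝ≥0∞) < ms (sg p u) I →
      (t : ℝ≥0∞) < ms (sg p u) K → ms u J ≤ C * ENNReal.ofReal (2 * D) ^ p *
        ((s : ℝ≥0∞) ^ (1 - p) + (t : ℝ≥0∞) ^ (1 - p)) := by
    intro s t hs ht hsI htK
    obtain ⟨g, hgm, hgi, hg0, hgI, _, _, hg1, hgp⟩ := hTF p hp u hS.meas hS.fin I hI s hs hsI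
    obtain ⟨k, hkm, hki, hk0, hkK, _, _, hk1, hkp⟩ := hTF p hp u hS.meas hS.fin K hK t ht htK
    have hdI : ∀ x ∈ J, x ∉ I := by
      intro x hx hxI
      rcases hIJ with h | h
      · have := (h x hx x hxI).1
        linarith
      · have := (h x hx x hxI).1
        linarith
    have hdK : ∀ x ∈ J, x ∉ K := by
      intro x hx hxK
      have := hJK x hx x hxK
      rw [sub_self, abs_zero] at this
      linarith
    have hdis : ∀ y, g y = 0 ∨ k y = 0 := by
      intro y
      by_cases hy : y ∈ I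
      · right
        exact hkK y fun hyK => Set.disjoint_left.1 hIK hy hyK
      · left
        exact hgI y hy
    have hadm := hS.adm (fun y => g y - k y) (hgm.sub hkm) (hgi.sub hki)
      (by rw [integral_sub hgi hki, hg1, hk1, sub_self]) J hJ
      (fun x hx => by simp only [hgI x (hdI x hx), hkK x (hdK x hx), sub_self])
    have hlow : ∀ x ∈ J, 1 / (2 * D) ≤ |∫ y, (g y - k y) / (x - y)| := by
      intro x hx
      obtain ⟨r1, hr1, h1⟩ := pole_away hJ hdI hgI hx
      obtain ⟨r2, hr2, h2⟩ := pole_away hJ hdK hkK hx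
      have i1 := integrable_div hgi hr1 h1
      have i2 := integrable_div hki hr2 h2
      have e1 : ∫ y, (g y - k y) / (x - y) = (∫ y, g y / (x - y)) - ∫ y, k y / (x - y) := by
        rw [← integral_sub i1 i2]
        refine integral_congr_ae (Eventually.of_forall fun y => ?_)
        simp only
        ring
      have a1 := low hgi hg0 hgI hD i1 (by
        rcases hIJ with h | h
        · exact Or.inl (h x hx)
        · exact Or.inr (h x hx))
      have a2 : |∫ y, k y / (x - y)| ≤ (∫ y, |k y|) / (2 * D) :=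
        upp hki h2D fun y hy => hJK x hx y (by
          by_contra h3
          exact hy (hkK y h3))
      have e2 : ∫ y, |k y| = 1 := by
        rw [← hk1]
        refine integral_congr_ae (Eventually.of_forall fun y => ?_)
        exact abs_of_nonneg (hk0 y)
      rw [hg1] at a1
      rw [e2] at a2
      rw [e1]
      have a3 := abs_sub_abs_le_abs_sub (∫ y, g y / (x - y)) (∫ y, k y / (x - y))
      have a4 : 1 / (2 * D) = 1 / D - 1 / (2 * D) := by field_simp; ring
      linarith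
    have hL : ENNReal.ofReal (1 / (2 * D)) ^ p * ms u J ≤
        ∫⁻ x in J, ENNReal.ofReal |∫ y, (g y - k y) / (x - y)| ^ p * u x := by
      unfold ms
      rw [← lintegral_const_mul' _ _ (ENNReal.rpow_ne_top_of_nonneg hp0.le ENNReal.ofReal_ne_top)]
      refine setLIntegral_mono' hJ.measurableSet fun x hx => ?_
      gcongr
      exact hlow x hx
    have hR : ∫⁻ x, ENNReal.ofReal |g x - k x| ^ p * u x ≤
        (s : ℝ≥0∞) ^ (1 - p) + (t : ℝ≥0∞) ^ (1 - p) := by
      rw [pow_split hp0 hS.meas hgm hkm hdis]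
      refine add_le_add ?_ ?_
      · refine le_trans (le_of_eq (lintegral_congr fun x => ?_)) hgp
        rw [abs_of_nonneg (hg0 x)]
      · refine le_trans (le_of_eq (lintegral_congr fun x => ?_)) hkp
        rw [abs_of_nonneg (hk0 x)]
    have hfin := cancel hp0 h2D (hL.trans (hadm.trans (mul_le_mul_right hR _)))
    refine hfin.trans (le_of_eq ?_)
    ring
  obtain ⟨s, hs0, hs1, hs⟩ := lim_below hI0
  obtain ⟨t, ht0, ht1, ht⟩ := lim_below hK0
  have hlim : Tendsto (fun n => (C : ℝ≥0∞) * ENNReal.ofReal (2 * D) ^ p *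
      ((s n : ℝ≥0∞) ^ (1 - p) + (t n : ℝ≥0∞) ^ (1 - p))) atTop
      (𝓝 (C * ENNReal.ofReal (2 * D) ^ p * (ms (sg p u) I ^ (1 - p) + ms (sg p u) K ^ (1 - p)))) := by
    refine ENNReal.Tendsto.const_mul ?_ (Or.inr hCtop)
    exact ((ENNReal.continuous_rpow_const.tendsto _).comp hs).add
      ((ENNReal.continuous_rpow_const.tendsto _).comp ht)
  exact ge_of_tendsto' hlim fun n => claim (s n) (t n) (hs0 n) (ht0 n) (hs1 n) (ht1 n)

end Pool.Agent.Q129.HW
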