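import Pool.Agent.Q79.HW.StmN

/-!
# Job HW-RED of helper79 (by helper129)
-/

set_option autoImplicit false

open MeasureTheory Filter Topology Set
open scoped ENNReal NNReal Real

namespace Pool.Agent.Q129.HW

open Pool.Agent.Q79.HW

lemma hilb_eq {𝕜 : Type} [RCLike 𝕜] {f : ℝ → 𝕜} {x : ℝ} {L : 𝕜}
    (h : Tendsto (fun δ : ℝ => trunc f δ x) (𝓝[>] 0) (𝓝 L)) : hilb f x = L := by
  unfold hilb
  rw [dif_pos ⟨L, h⟩]
  exact tendsto_nhds_unique (Exists.choose_spec (⟨L, h⟩ : ∃ L : 𝕜,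
    Tendsto (fun δ : ℝ => trunc f δ x) (𝓝[>] 0) (𝓝 L))) h

lemma hilb_off {𝕜 : Type} [RCLike 𝕜] {f : ℝ → ℝ} {J : Set ℝ} (hJ : IsOpen J)
    (h0 : ∀ x ∈ J, f x = 0) {x : ℝ} (hx : x ∈ J) :
    hilb (fun y => (f y : 𝕜)) x = ((1 / π : ℝ) : 𝕜) * ((∫ y, f y / (x - y) : ℝ) : 𝕜) := by
  obtain ⟨r, hr, hb⟩ := Metric.isOpen_iff.1 hJ x hx
  apply hilb_eq
  have hev : ∀ δ ∈ Ioo (0 : ℝ) r, trunc (fun y => (f y : 𝕜)) δ x =
      ((1 / π : ℝ) : 𝕜) * ((∫ y, f y / (x - y) : ℝ) : 𝕜) := by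
    intro δ hδ
    unfold trunc
    congr 1
    rw [setIntegral_eq_integral_of_forall_compl_eq_zero]
    · rw [← integral_ofReal]
      refine integral_congr_ae (Eventually.of_forall fun y => ?_)
      simp only [RCLike.ofReal_div]
    · intro y hy
      have hy2 : |y - x| ≤ δ := not_lt.1 hy
      have hyJ : y ∈ J := hb (by
        rw [Metric.mem_ball, Real.dist_eq]
        exact lt_of_le_of_lt hy2 hδ.2)
      simp only
      rw [h0 y hyJ]
      simp
  refine Tendsto.congr' ?_ tendsto_const_nhds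
  have : Ioo (0 : ℝ) r ∈ 𝓝[>] (0 : ℝ) := Ioo_mem_nhdsGT hr
  filter_upwards [this] with δ hδ
  exact (hev δ hδ).symm

theorem t_RED : S_RED := by
  intro 𝕜 _ p hp U hU hadm
  obtain ⟨C₀, hC₀⟩ := hadm
  have hp0 : 0 < p := by linarith
  refine ⟨NNReal.pi ^ p * C₀ + 1, hp, hU.meas.ennreal_ofReal, fun x => ENNReal.ofReal_ne_top,
    fun a b => ?_, ?_, by positivity, ?_⟩
  · have h1 : IntegrableOn U (Icc a b) := hU.loc.integrableOn_isCompact isCompact_Icc
    have h2 : IntegrableOn U (Ioo a b) := h1.mono_set Ioo_subset_Icc_self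
    exact (Integrable.lintegral_lt_top h2).ne
  · intro h
    apply hU.nonzero
    filter_upwards [h] with x hx
    have h1 : U x ≤ 0 := ENNReal.ofReal_eq_zero.1 hx
    exact le_antisymm h1 (hU.nonneg x)
  · intro f hfm hfi hf0 J hJ hfJ
    have hF : Integrable (fun y => (f y : 𝕜)) := hfi.ofReal
    have hF0 : ∫ y, (f y : 𝕜) = 0 := by
      rw [integral_ofReal, hf0]
      simp
    have h1 := hC₀ _ hF hF0
    have hpi : ((NNReal.pi : ℝ≥0) : ℝ≥0∞) = ENNReal.ofReal π := by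
      rw [← NNReal.coe_real_pi, ENNReal.ofReal_coe_nnreal]
    have hx : ∀ x ∈ J, ENNReal.ofReal |∫ y, f y / (x - y)| =
        ENNReal.ofReal π * ‖hilb (fun y => (f y : 𝕜)) x‖ₑ := by
      intro x hxJ
      rw [hilb_off hJ hfJ hxJ, enorm_mul]
      have e1 : ∀ t : ℝ, ‖((t : ℝ) : 𝕜)‖ₑ = ENNReal.ofReal |t| := by
        intro t
        rw [← ofReal_norm, RCLike.norm_ofReal]
      have e2 : |1 / π| = 1 / π := abs_of_pos (by positivity)
      rw [e1, e1, ← mul_assoc, ← ENNReal.ofReal_mul Real.pi_pos.le, e2,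
        mul_one_div_cancel Real.pi_pos.ne', ENNReal.ofReal_one, one_mul]
    have hJm : MeasurableSet J := hJ.measurableSet
    calc ∫⁻ x in J, ENNReal.ofReal |∫ y, f y / (x - y)| ^ p * ENNReal.ofReal (U x)
        = ∫⁻ x in J, ENNReal.ofReal π ^ p *
            (‖hilb (fun y => (f y : 𝕜)) x‖ₑ ^ p * ENNReal.ofReal (U x)) := by
          refine setLIntegral_congr_fun hJm fun x hxJ => ?_
          show ENNReal.ofReal |∫ y, f y / (x - y)| ^ p * ENNReal.ofReal (U x) =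
            ENNReal.ofReal π ^ p * (‖hilb (fun y => (f y : 𝕜)) x‖ₑ ^ p * ENNReal.ofReal (U x))
          rw [hx x hxJ, ENNReal.mul_rpow_of_nonneg _ _ hp0.le, mul_assoc]
      _ = ENNReal.ofReal π ^ p * ∫⁻ x in J,
            (‖hilb (fun y => (f y : 𝕜)) x‖ₑ ^ p * ENNReal.ofReal (U x)) := by
          rw [lintegral_const_mul']
          exact ENNReal.rpow_ne_top_of_nonneg hp0.le ENNReal.ofReal_ne_top
      _ ≤ ENNReal.ofReal π ^ p * ∫⁻ x, (‖hilb (fun y => (f y : 𝕜)) x‖ₑ ^ p * ENNReal.ofReal (U x)) := by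
          gcongr
          exact Measure.restrict_le_self
      _ ≤ ENNReal.ofReal π ^ p * (C₀ * ∫⁻ x, ‖(f x : 𝕜)‖ₑ ^ p * ENNReal.ofReal (U x)) := by
          gcongr
      _ = ENNReal.ofReal π ^ p * C₀ * ∫⁻ x, ENNReal.ofReal |f x| ^ p * ENNReal.ofReal (U x) := by
          rw [mul_assoc]
          congr 2
          refine lintegral_congr fun x => ?_
          rw [← ofReal_norm, RCLike.norm_ofReal]
      _ ≤ ((NNReal.pi ^ p * C₀ + 1 : ℝ≥0) : ℝ≥0∞) *
            ∫⁻ x, ENNReal.ofReal |f x| ^ p * ENNReal.ofReal (U x) := by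
          gcongr
          rw [ENNReal.coe_add, ENNReal.coe_mul, ENNReal.coe_rpow_of_nonneg _ hp0.le, hpi]
          exact le_self_add

end Pool.Agent.Q129.HW
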