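import Pool.Agent.Q129.HW.PT

/-!
# Job HW-WT of helper79 (by helper129)
-/

set_option autoImplicit false

open MeasureTheory Filter Topology Set
open scoped ENNReal NNReal Real

namespace Pool.Agent.Q129.HW

open Pool.Agent.Q79.HW

lemma sg_meas {p : ℝ} {u : ℝ → ℝ≥0∞} (hu : Measurable u) : Measurable (sg p u) := by
  unfold sg
  exact hu.pow_const _

/-- `t^{p-1} u ≤ 1` for `t ≤ σ` -/
lemma pw_le {p : ℝ} (hp : 1 < p) {u : ℝ → ℝ≥0∞} (hfin : ∀ x, u x ≠ ∞) {x : ℝ} {t : ℝ≥0∞}
    (ht : t ≤ sg p u x) (ht2 : t ≠ ∞) : t ^ p * u x ≤ t := by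
  have hp1 : 0 < p - 1 := by linarith
  rcases eq_or_ne (u x) 0 with h | h
  · rw [h, mul_zero]
    exact zero_le
  · rcases eq_or_ne t 0 with h0 | h0
    · rw [h0, ENNReal.zero_rpow_of_pos (by linarith), zero_mul]
    · have h1 : t ^ (p - 1) * u x ≤ 1 := by
        calc t ^ (p - 1) * u x ≤ (sg p u x) ^ (p - 1) * u x := by
              gcongr
          _ = 1 := by
              unfold sg
              rw [← ENNReal.rpow_mul]
              have e : -(1 / (p - 1)) * (p - 1) = -1 := by field_simp
              rw [e, ENNReal.rpow_neg_one, ENNReal.inv_mul_cancel h (hfin x)]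
      have e2 : t ^ p = t * t ^ (p - 1) := by
        nth_rewrite 2 [← ENNReal.rpow_one t]
        rw [← ENNReal.rpow_add _ _ h0 ht2]
        congr 1
        ring
      rw [e2, mul_assoc]
      exact mul_le_of_le_one_right zero_le h1

theorem t_WT (hTF : S_TF) : S_WT := by
  intro p u C hS c hc I J hI hJ D hD hIJ
  have hp := hS.hp
  have hp0 : 0 < p := by linarith
  have hp1 : 0 < p - 1 := by linarith
  have h1p : 1 - p < 0 := by linarith
  have h2D : 0 < 2 * D := by linarith
  set q : ℝ := p / (p - 1) with hq
  have hq1 : 0 < q - 1 := by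
    have : q - 1 = 1 / (p - 1) := by rw [hq]; field_simp; ring
    rw [this]; positivity
  have hq0 : 0 < q := by linarith
  have hqp : (q - 1) * p = q := by rw [hq]; field_simp; ring
  have hdI : ∀ x ∈ J, x ∉ I := by
    intro x hx hxI
    rcases hIJ with h | h
    · have := (h x hx x hxI).1
      linarith
    · have := (h x hx x hxI).1
      linarith
  have hCne : (C : ℝ≥0∞) * ENNReal.ofReal (2 * D) ^ p ≠ 0 := by
    refine mul_ne_zero (by exact_mod_cast hS.hC.ne') ?_
    rw [Ne, ENNReal.rpow_eq_zero_iff_of_pos hp0, ENNReal.ofReal_eq_zero, not_le]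
    exact h2D
  have hCtop : (C : ℝ≥0∞) * ENNReal.ofReal (2 * D) ^ p ≠ ∞ :=
    ENNReal.mul_ne_top ENNReal.coe_ne_top
      (ENNReal.rpow_ne_top_of_nonneg hp0.le ENNReal.ofReal_ne_top)
  set σ : ℝ → ℝ≥0∞ := sg p u with hσ
  have hσm : Measurable σ := sg_meas hS.meas
  set X : ℝ≥0∞ := ∫⁻ x in J, u x * ENNReal.ofReal |x - c| ^ (-p) with hX
  set M : ℝ≥0∞ := ∫⁻ y in I, σ y * ENNReal.ofReal |y - c| ^ q with hM
  by_cases hM0 : M = 0
  · rw [hM0, ENNReal.zero_rpow_of_neg h1p, ENNReal.mul_top hCne]
    exact le_top
  -- the cut offs
  set E : ℕ → Set ℝ := fun n => I ∩ {y | 1 / (n : ℝ) < |y - c| ∧ |y - c| < n} with hE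
  have hEm : ∀ n, MeasurableSet (E n) := by
    intro n
    refine hI.inter ?_
    refine MeasurableSet.inter ?_ ?_
    · exact measurableSet_lt measurable_const (by fun_prop : Measurable fun y : ℝ => |y - c|)
    · exact measurableSet_lt (by fun_prop : Measurable fun y : ℝ => |y - c|) measurable_const
  set F : ℕ → ℝ → ℝ≥0∞ := fun n =>
    (E n).indicator fun y => min (σ y) n * ENNReal.ofReal |y - c| ^ q with hF
  have hFm : ∀ n, Measurable (F n) := by
    intro n
    refine Measurable.indicator ?_ (hEm n)
    exact (hσm.min measurable_const).mul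
      ((by fun_prop : Measurable fun y : ℝ => |y - c|).ennreal_ofReal.pow_const q)
  have hMn : Tendsto (fun n => ∫⁻ y, F n y) atTop (𝓝 M) := by
    have e : M = ∫⁻ y, I.indicator (fun y => σ y * ENNReal.ofReal |y - c| ^ q) y := by
      rw [lintegral_indicator hI]
    rw [e]
    refine lintegral_tendsto_of_tendsto_of_monotone (fun n => (hFm n).aemeasurable)
      (Eventually.of_forall fun y => ?_) (Eventually.of_forall fun y => ?_)
    · intro n m hnm
      simp only [hF]
      by_cases hy : y ∈ E n
      · have hy2 : y ∈ E m := by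
          refine ⟨hy.1, ?_, ?_⟩
          · rcases Nat.eq_zero_or_pos n with h0 | h0
            · exfalso
              have := hy.2.2
              rw [h0, Nat.cast_zero] at this
              exact absurd this (not_lt.2 (abs_nonneg _))
            · refine lt_of_le_of_lt ?_ hy.2.1
              exact one_div_le_one_div_of_le (by exact_mod_cast h0) (by exact_mod_cast hnm)
          · exact hy.2.2.trans_le (by exact_mod_cast hnm)
        rw [indicator_of_mem hy, indicator_of_mem hy2]
        gcongr
      · rw [indicator_of_notMem hy]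
        exact zero_le
    · by_cases hy : y ∈ I
      · by_cases hyc : y = c
        · have e1 : ∀ n, F n y = 0 := by
            intro n
            simp only [hF]
            by_cases h : y ∈ E n
            · rw [indicator_of_mem h, hyc]
              simp [ENNReal.zero_rpow_of_pos hq0]
            · rw [indicator_of_notMem h]
          simp only [e1]
          rw [indicator_of_mem hy, hyc]
          simp [ENNReal.zero_rpow_of_pos hq0]
        · have hpos : 0 < |y - c| := abs_pos.2 (sub_ne_zero.2 hyc)
          have hev : ∀ᶠ n : ℕ in atTop, F n y = min (σ y) n * ENNReal.ofReal |y - c| ^ q := by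
            obtain ⟨n1, hn1⟩ := exists_nat_gt (1 / |y - c|)
            obtain ⟨n2, hn2⟩ := exists_nat_gt |y - c|
            filter_upwards [eventually_ge_atTop (n1 + n2 + 1)] with n hn
            have a1 : (n1 : ℝ) ≤ n := by exact_mod_cast (by omega : n1 ≤ n)
            have a2 : (n2 : ℝ) ≤ n := by exact_mod_cast (by omega : n2 ≤ n)
            have a3 : (0 : ℝ) < n := by exact_mod_cast (by omega : 0 < n)
            have hyE : y ∈ E n := by
              refine ⟨hy, ?_, ?_⟩
              · rw [one_div_lt a3 hpos]
                linarith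
              · linarith
            simp only [hF]
            rw [indicator_of_mem hyE]
          rw [tendsto_congr' hev, indicator_of_mem hy]
          refine ENNReal.Tendsto.mul_const ?_ (Or.inr
            (ENNReal.rpow_ne_top_of_nonneg hq0.le ENNReal.ofReal_ne_top))
          have h3 : Tendsto (fun n : ℕ => min (σ y) (n : ℝ≥0∞)) atTop (𝓝 (min (σ y) ∞)) :=
            tendsto_const_nhds.min ENNReal.tendsto_nat_nhds_top
          rwa [min_eq_left le_top] at h3
      · have e1 : ∀ n, F n y = 0 := by
          intro n
          simp only [hF]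
          exact indicator_of_notMem (fun h => hy h.1) _
        simp only [e1]
        rw [indicator_of_notMem hy]
        exact tendsto_const_nhds
  -- the main estimate for fixed `n`
  have main : ∀ n : ℕ, (∫⁻ y, F n y) ≠ 0 →
      X ≤ C * ENNReal.ofReal (2 * D) ^ p * (∫⁻ y, F n y) ^ (1 - p) := by
    intro n hn0
    have hn : 0 < n := by
      rcases Nat.eq_zero_or_pos n with h | h
      · exfalso
        apply hn0
        have : ∀ y, F n y = 0 := by
          intro y
          simp only [hF]
          refine indicator_of_notMem (fun hy => ?_) _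
          have := hy.2.2
          rw [h, Nat.cast_zero] at this
          exact absurd this (not_lt.2 (abs_nonneg _))
        simp [this]
      · exact h
    have hnR : (0 : ℝ) < n := by exact_mod_cast hn
    set t : ℝ → ℝ := fun y => (min (σ y) n).toReal with ht
    have htfin : ∀ y, min (σ y) (n : ℝ≥0∞) ≠ ∞ := fun y =>
      ((min_le_right _ _).trans_lt (ENNReal.natCast_lt_top n)).ne
    have ht0 : ∀ y, 0 ≤ t y := fun y => ENNReal.toReal_nonneg
    have htn : ∀ y, t y ≤ n := by
      intro y
      have := ENNReal.toReal_mono (ENNReal.natCast_ne_top n) (min_le_right (σ y) (n : ℝ≥0∞))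
      simpa using this
    have htof : ∀ y, ENNReal.ofReal (t y) = min (σ y) n := fun y => ENNReal.ofReal_toReal (htfin y)
    have htm : Measurable t := (hσm.min measurable_const).ennreal_toReal
    set g : ℝ → ℝ := (E n).indicator fun y => (y - c) * (|y - c| ^ (q - 2) * t y) with hg
    have hgm : Measurable g := by
      refine Measurable.indicator ?_ (hEm n)
      have h1 : Measurable fun y : ℝ => |y - c| ^ (q - 2) := by fun_prop
      have h2 : Measurable fun y : ℝ => y - c := by fun_prop
      exact h2.mul (h1.mul htm)
    have hEpos : ∀ y ∈ E n, 0 < |y - c| := fun y hy =>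
      lt_trans (by positivity) hy.2.1
    have hgabs : ∀ y ∈ E n, |g y| = |y - c| ^ (q - 1) * t y := by
      intro y hy
      simp only [hg]
      rw [indicator_of_mem hy, abs_mul, abs_mul, abs_of_nonneg (ht0 y),
        abs_of_nonneg (Real.rpow_nonneg (abs_nonneg _) _), ← mul_assoc]
      congr 1
      nth_rewrite 1 [← Real.rpow_one |y - c|]
      rw [← Real.rpow_add (hEpos y hy)]
      congr 1
      ring
    have hgout : ∀ y, y ∉ E n → g y = 0 := by
      intro y hy
      simp only [hg]
      exact indicator_of_notMem hy _
    have hgI : ∀ y, y ∉ I → g y = 0 := fun y hy => hgout y fun h => hy h.1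
    have hbdd : ∀ (G : ℝ → ℝ), Measurable G → (∀ y, y ∉ E n → G y = 0) → (∃ B : ℝ, ∀ y ∈ E n,
        |G y| ≤ B) → Integrable G := by
      intro G hGm hG0 ⟨B, hB⟩
      have hsub : E n ⊆ Ioo (c - n) (c + n) := by
        intro y hy
        have := abs_lt.1 hy.2.2
        exact ⟨by linarith [this.1], by linarith [this.2]⟩
      have h1 : volume (E n) ≠ ∞ := by
        refine (lt_of_le_of_lt (measure_mono hsub) ?_).ne
        rw [Real.volume_Ioo]
        exact ENNReal.ofReal_lt_top
      have h2 : IntegrableOn G (E n) := by
        refine Measure.integrableOn_of_bounded h1 hGm.aestronglyMeasurable (M := B) ?_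
        refine (ae_restrict_iff' (hEm n)).2 (Eventually.of_forall fun y hy => ?_)
        exact hB y hy
      refine (integrableOn_iff_integrable_of_support_subset ?_).1 h2
      intro y hy
      by_contra h
      exact hy (hG0 y h)
    have hgi : Integrable g := by
      refine hbdd g hgm hgout ⟨(n : ℝ) ^ (q - 1) * n, fun y hy => ?_⟩
      rw [hgabs y hy]
      refine mul_le_mul ?_ (htn y) (ht0 y) (by positivity)
      exact Real.rpow_le_rpow (abs_nonneg _) hy.2.2.le hq1.le
    -- the function `h`
    set h : ℝ → ℝ := fun y => g y * (y - c) with hh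
    have hhval : ∀ y ∈ E n, h y = |y - c| ^ q * t y := by
      intro y hy
      simp only [hh, hg]
      rw [indicator_of_mem hy]
      have e1 : (y - c) * (|y - c| ^ (q - 2) * t y) * (y - c) =
          |y - c| ^ 2 * |y - c| ^ (q - 2) * t y := by
        rw [sq_abs]; ring
      rw [e1]
      congr 1
      rw [← Real.rpow_natCast |y - c| 2, ← Real.rpow_add (hEpos y hy)]
      congr 1
      push_cast
      ring
    have hhout : ∀ y, y ∉ E n → h y = 0 := by
      intro y hy
      simp only [hh]
      rw [hgout y hy, zero_mul]
    have hhI : ∀ y, y ∉ I → h y = 0 := fun y hy => hhout y fun h => hy h.1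
    have hh0 : ∀ y, 0 ≤ h y := by
      intro y
      by_cases hy : y ∈ E n
      · rw [hhval y hy]
        exact mul_nonneg (Real.rpow_nonneg (abs_nonneg _) _) (ht0 y)
      · rw [hhout y hy]
    have hhm : Measurable h := hgm.mul (by fun_prop)
    have hhi : Integrable h := by
      refine hbdd h hhm hhout ⟨(n : ℝ) ^ q * n, fun y hy => ?_⟩
      rw [hhval y hy, abs_of_nonneg (mul_nonneg (Real.rpow_nonneg (abs_nonneg _) _) (ht0 y))]
      refine mul_le_mul ?_ (htn y) (ht0 y) (by positivity)
      exact Real.rpow_le_rpow (abs_nonneg _) hy.2.2.le hq0.le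
    set Mr : ℝ := ∫ y, h y with hMr
    have hMrF : ENNReal.ofReal Mr = ∫⁻ y, F n y := by
      rw [hMr, ofReal_integral_eq_lintegral_ofReal hhi (Eventually.of_forall hh0)]
      refine lintegral_congr fun y => ?_
      simp only [hF]
      by_cases hy : y ∈ E n
      · rw [indicator_of_mem hy, hhval y hy, ENNReal.ofReal_mul (Real.rpow_nonneg (abs_nonneg _) _),
          htof, ENNReal.ofReal_rpow_of_pos (hEpos y hy), mul_comm]
      · rw [indicator_of_notMem hy, hhout y hy, ENNReal.ofReal_zero]
    have hMrpos : 0 < Mr := by
      by_contra hcon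
      rw [← hMrF, ENNReal.ofReal_eq_zero.2 (not_lt.1 hcon)] at hn0
      exact hn0 rfl
    -- the `p`-th power
    have hgp : ∫⁻ y, ENNReal.ofReal |g y| ^ p * u y ≤ ENNReal.ofReal Mr := by
      rw [hMrF]
      refine lintegral_mono fun y => ?_
      simp only [hF]
      by_cases hy : y ∈ E n
      · rw [indicator_of_mem hy, hgabs y hy, ENNReal.ofReal_mul (Real.rpow_nonneg (abs_nonneg _) _),
          htof, ENNReal.mul_rpow_of_nonneg _ _ hp0.le, ← ENNReal.ofReal_rpow_of_pos (hEpos y hy),
          ← ENNReal.rpow_mul, hqp, mul_assoc, mul_comm (min (σ y) (n : ℝ≥0∞)) (_ ^ q)]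
        exact mul_le_mul_right (pw_le hp hS.fin (min_le_left _ _) (htfin y)) _
      · rw [hgout y hy]
        simp [ENNReal.zero_rpow_of_pos hp0]
    set m : ℝ := ∫ y, g y with hm
    -- fixed `ρ`
    have step : ∀ ρ : ℝ, 0 < ρ →
        ENNReal.ofReal (Mr / (2 * D)) ^ p *
          (∫⁻ x in J ∩ {x | ρ < |x - c|}, u x * ENNReal.ofReal |x - c| ^ (-p)) ≤
          C * ENNReal.ofReal Mr := by
      intro ρ hρ
      set J' : Set ℝ := J ∩ {x | ρ < |x - c|} with hJ'
      have hJ'o : IsOpen J' := hJ.inter (isOpen_lt continuous_const (by fun_prop))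
      obtain ⟨r, hr0, hr1, hr2, hr3⟩ : ∃ r : ℝ, 0 < r ∧ r ≤ ρ / 2 ∧ r ≤ 1 / n ∧
          |m| * (r / (ρ / 2)) ≤ Mr / (2 * D) := by
        refine ⟨min (min (ρ / 2) (1 / n)) (Mr / (2 * D) / (|m| + 1) * (ρ / 2)), ?_, ?_, ?_, ?_⟩
        · positivity
        · exact (min_le_left _ _).trans (min_le_left _ _)
        · exact (min_le_left _ _).trans (min_le_right _ _)
        · set r := min (min (ρ / 2) (1 / (n : ℝ))) (Mr / (2 * D) / (|m| + 1) * (ρ / 2)) with hr
          have h1 : r ≤ Mr / (2 * D) / (|m| + 1) * (ρ / 2) := min_le_right _ _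
          have h2 : r / (ρ / 2) ≤ Mr / (2 * D) / (|m| + 1) := by
            rw [div_le_iff₀ (by positivity)]
            exact h1
          calc |m| * (r / (ρ / 2)) ≤ |m| * (Mr / (2 * D) / (|m| + 1)) :=
                mul_le_mul_of_nonneg_left h2 (abs_nonneg _)
            _ ≤ (|m| + 1) * (Mr / (2 * D) / (|m| + 1)) := by
                refine mul_le_mul_of_nonneg_right (by linarith) (by positivity)
            _ = _ := by field_simp
      -- bound for every `s`
      have hs : ∀ s : ℝ≥0, 0 < s → ENNReal.ofReal (Mr / (2 * D)) ^ p *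
          (∫⁻ x in J', u x * ENNReal.ofReal |x - c| ^ (-p)) ≤
          C * (ENNReal.ofReal Mr + ENNReal.ofReal |m| ^ p * (s : ℝ≥0∞) ^ (1 - p)) := by
        intro s hs
        obtain ⟨k, hkm, hki, hk0, hkK, _, _, hk1, hkp⟩ := hTF p hp u hS.meas hS.fin
          (Ioo (c - r) (c + r)) measurableSet_Ioo s hs (by rw [hc r hr0]; exact ENNReal.coe_lt_top)
        have hkr : ∀ y, r ≤ |y - c| → k y = 0 := by
          intro y hy
          refine hkK y fun h1 => ?_
          have : |y - c| < r := by rw [abs_lt]; constructor <;> linarith [h1.1, h1.2]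
          linarith
        have hdis : ∀ y, g y = 0 ∨ m * k y = 0 := by
          intro y
          by_cases hy : y ∈ E n
          · right
            rw [hkr y (hr2.trans hy.2.1.le), mul_zero]
          · left
            exact hgout y hy
        have hmk : Integrable fun y => m * k y := hki.const_mul m
        have hf0 : ∀ x ∈ J', g x - m * k x = 0 := by
          intro x hx
          have h2 : ρ < |x - c| := hx.2
          rw [hgI x (hdI x hx.1), hkr x (by linarith), mul_zero, sub_zero]
        have hadm := hS.adm (fun y => g y - m * k y) (hgm.sub (hkm.const_mul m)) (hgi.sub hmk)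
          (by rw [integral_sub hgi hmk, integral_const_mul, hk1, mul_one, ← hm, sub_self]) J' hJ'o hf0
        have hlow : ∀ x ∈ J', Mr / (2 * D) / |x - c| ≤ |∫ y, (g y - m * k y) / (x - y)| := by
          intro x hx
          have hxρ : ρ < |x - c| := hx.2
          have hxc : 0 < |x - c| := hρ.trans hxρ
          have hxc' : x - c ≠ 0 := abs_pos.1 hxc
          obtain ⟨r1, hr1', h1⟩ := pole_away hJ hdI hgI hx.1
          have i1 := integrable_div hgi hr1' h1
          have i2 : Integrable fun y => m * k y / (x - y) := by
            refine integrable_div hmk (r := ρ / 2) (by positivity) fun y hy => ?_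
            rw [hkr y, mul_zero]
            have h3 : |x - c| ≤ |x - y| + |y - c| := abs_sub_le x y c
            linarith
          have i3 : Integrable fun y => h y / (x - y) := by
            refine integrable_div hhi hr1' fun y hy => ?_
            simp only [hh]
            rw [h1 y hy, zero_mul]
          have i4 : Integrable fun y => k y * (y - c) := by
            refine (hki.mul_const r).mono' (hkm.mul (by fun_prop)).aestronglyMeasurable
              (Eventually.of_forall fun y => ?_)
            rw [norm_mul, Real.norm_of_nonneg (hk0 y), Real.norm_eq_abs]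
            by_cases hy : r ≤ |y - c|
            · rw [hkr y hy]; simp
            · exact mul_le_mul_of_nonneg_left (not_le.1 hy).le (hk0 y)
          have i5 : Integrable fun y => k y * (y - c) / (x - y) := by
            refine integrable_div i4 (r := ρ / 2) (by positivity) fun y hy => ?_
            rw [hkr y, zero_mul]
            have h3 : |x - c| ≤ |x - y| + |y - c| := abs_sub_le x y c
            linarith
          -- identity
          have e1 : ∫ y, (g y - m * k y) / (x - y) =
              (1 / (x - c)) * ((∫ y, h y / (x - y)) - m * ∫ y, k y * (y - c) / (x - y)) := by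
            have e0 : ∫ y, (g y - m * k y) * (1 / (x - c)) = 0 := by
              rw [integral_mul_const, integral_sub hgi hmk, integral_const_mul, hk1, mul_one, ← hm,
                sub_self, zero_mul]
            have e2 : ∫ y, (g y - m * k y) / (x - y) =
                ∫ y, ((g y - m * k y) / (x - y) - (g y - m * k y) * (1 / (x - c))) := by
              have i6 : Integrable fun y => (g y - m * k y) / (x - y) := by
                refine (i1.sub i2).congr (Eventually.of_forall fun y => ?_)
                simp only [Pi.sub_apply]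
                ring
              have i7 : Integrable fun y => (g y - m * k y) * (1 / (x - c)) :=
                (hgi.sub hmk).mul_const _
              rw [integral_sub i6 i7, e0, sub_zero]
            rw [e2, ← integral_const_mul m, ← integral_sub i3 (i5.const_mul m), ← integral_const_mul]
            refine integral_congr_ae (Eventually.of_forall fun y => ?_)
            simp only [hh]
            by_cases hy : x - y = 0
            · have hyx : y = x := by linarith
              rw [hyx, hf0 x hx]
              have hgx : g x = 0 := hgI x (hdI x hx.1)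
              have hkx : k x = 0 := hkr x (by linarith)
              rw [hgx, hkx]
              simp
            · field_simp
              ring
          rw [e1, abs_mul, abs_div, abs_one]
          have a1 : Mr / D ≤ |∫ y, h y / (x - y)| := low hhi hh0 hhI hD i3 (by
            rcases hIJ with h | h
            · exact Or.inl (h x hx.1)
            · exact Or.inr (h x hx.1))
          have a2 : |∫ y, k y * (y - c) / (x - y)| ≤ r / (ρ / 2) := by
            refine (upp i4 (d := ρ / 2) (by positivity) fun y hy => ?_).trans ?_
            · have hy2 : |y - c| < r := by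
                by_contra h4
                apply hy
                rw [hkr y (not_lt.1 h4), zero_mul]
              have h3 : |x - c| ≤ |x - y| + |y - c| := abs_sub_le x y c
              linarith
            · refine div_le_div_of_nonneg_right ?_ (by positivity)
              calc ∫ y, |k y * (y - c)| ≤ ∫ y, k y * r := by
                    refine integral_mono i4.abs (hki.mul_const r) fun y => ?_
                    show |k y * (y - c)| ≤ k y * r
                    rw [abs_mul, abs_of_nonneg (hk0 y)]
                    by_cases hy : r ≤ |y - c|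
                    · rw [hkr y hy]; simp
                    · exact mul_le_mul_of_nonneg_left (not_le.1 hy).le (hk0 y)
                _ = r := by rw [integral_mul_const, hk1, one_mul]
          have a3 : Mr / (2 * D) ≤ |(∫ y, h y / (x - y)) - m * ∫ y, k y * (y - c) / (x - y)| := by
            have b1 := abs_sub_abs_le_abs_sub (∫ y, h y / (x - y))
              (m * ∫ y, k y * (y - c) / (x - y))
            rw [abs_mul] at b1
            have b2 : |m| * |∫ y, k y * (y - c) / (x - y)| ≤ |m| * (r / (ρ / 2)) :=
              mul_le_mul_of_nonneg_left a2 (abs_nonneg _)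
            have b3 : Mr / D = Mr / (2 * D) + Mr / (2 * D) := by field_simp; ring
            linarith
          calc Mr / (2 * D) / |x - c| = 1 / |x - c| * (Mr / (2 * D)) := by ring
            _ ≤ _ := mul_le_mul_of_nonneg_left a3 (by positivity)
        have hL : ENNReal.ofReal (Mr / (2 * D)) ^ p *
            (∫⁻ x in J', u x * ENNReal.ofReal |x - c| ^ (-p)) ≤
            ∫⁻ x in J', ENNReal.ofReal |∫ y, (g y - m * k y) / (x - y)| ^ p * u x := by
          rw [← lintegral_const_mul' _ _ (ENNReal.rpow_ne_top_of_nonneg hp0.le ENNReal.ofReal_ne_top)]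
          refine setLIntegral_mono' hJ'o.measurableSet fun x hx => ?_
          have hxc : 0 < |x - c| := hρ.trans hx.2
          have e3 : ENNReal.ofReal (Mr / (2 * D)) ^ p * (u x * ENNReal.ofReal |x - c| ^ (-p)) =
              ENNReal.ofReal (Mr / (2 * D) / |x - c|) ^ p * u x := by
            rw [ENNReal.ofReal_div_of_pos hxc, ENNReal.div_rpow_of_nonneg _ _ hp0.le,
              ENNReal.rpow_neg, ENNReal.div_eq_inv_mul]
            ring
          rw [e3]
          gcongr
          exact hlow x hx
        refine hL.trans (hadm.trans (mul_le_mul_right ?_ _))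
        rw [pow_split hp0 hS.meas hgm (hkm.const_mul m) hdis]
        refine add_le_add hgp ?_
        calc ∫⁻ x, ENNReal.ofReal |m * k x| ^ p * u x =
              ∫⁻ x, ENNReal.ofReal |m| ^ p * (ENNReal.ofReal (k x) ^ p * u x) := by
              refine lintegral_congr fun x => ?_
              rw [abs_mul, abs_of_nonneg (hk0 x), ENNReal.ofReal_mul (abs_nonneg _),
                ENNReal.mul_rpow_of_nonneg _ _ hp0.le, mul_assoc]
          _ = ENNReal.ofReal |m| ^ p * ∫⁻ x, ENNReal.ofReal (k x) ^ p * u x :=
              lintegral_const_mul' _ _ (ENNReal.rpow_ne_top_of_nonneg hp0.le ENNReal.ofReal_ne_top)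
          _ ≤ _ := by gcongr
      have hlim : Tendsto (fun j : ℕ => (C : ℝ≥0∞) * (ENNReal.ofReal Mr + ENNReal.ofReal |m| ^ p *
          (((j + 1 : ℕ) : ℝ≥0) : ℝ≥0∞) ^ (1 - p))) atTop
          (𝓝 (C * (ENNReal.ofReal Mr + ENNReal.ofReal |m| ^ p * 0))) := by
        refine ENNReal.Tendsto.const_mul ?_ (Or.inr ENNReal.coe_ne_top)
        refine tendsto_const_nhds.add ?_
        refine ENNReal.Tendsto.const_mul ?_ (Or.inr
          (ENNReal.rpow_ne_top_of_nonneg hp0.le ENNReal.ofReal_ne_top))
        have h5 : Tendsto (fun j : ℕ => (((j + 1 : ℕ) : ℝ≥0) : ℝ≥0∞)) atTop (𝓝 ∞) := by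
          have := (tendsto_add_atTop_iff_nat 1).2 ENNReal.tendsto_nat_nhds_top
          refine this.congr fun j => ?_
          norm_cast
        have h6 := (ENNReal.continuous_rpow_const (y := 1 - p)).tendsto ∞
        rw [ENNReal.top_rpow_of_neg h1p] at h6
        exact h6.comp h5
      have h7 := ge_of_tendsto' hlim fun j => hs ((j + 1 : ℕ) : ℝ≥0) (by positivity)
      rw [mul_zero, add_zero] at h7
      exact h7
    -- let `ρ → 0`
    have hXall : ENNReal.ofReal (Mr / (2 * D)) ^ p * X ≤ C * ENNReal.ofReal Mr := by
      set S : ℕ → Set ℝ := fun j => J ∩ {x | 1 / ((j : ℝ) + 1) < |x - c|} with hSdef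
      have hmono : Monotone S := by
        intro i j hij x hx
        have hx2 : 1 / ((i : ℝ) + 1) < |x - c| := hx.2
        have hx3 : 1 / ((j : ℝ) + 1) ≤ 1 / ((i : ℝ) + 1) :=
          one_div_le_one_div_of_le (by positivity) (by
            have : (i : ℝ) ≤ j := by exact_mod_cast hij
            linarith)
        exact ⟨hx.1, lt_of_le_of_lt hx3 hx2⟩
      have hunion : (⋃ j, S j) = J \ {c} := by
        ext x
        rw [mem_iUnion]
        constructor
        · rintro ⟨j, hx1, hx2⟩
          refine ⟨hx1, fun h => ?_⟩
          rw [mem_singleton_iff] at h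
          have hx3 : 1 / ((j : ℝ) + 1) < |x - c| := hx2
          rw [h, sub_self, abs_zero] at hx3
          have : (0 : ℝ) < 1 / ((j : ℝ) + 1) := by positivity
          linarith
        · rintro ⟨hx1, hx2⟩
          have hpos : 0 < |x - c| := abs_pos.2 (sub_ne_zero.2 hx2)
          obtain ⟨j, hj⟩ := exists_nat_one_div_lt hpos
          exact ⟨j, hx1, hj⟩
      have hXe : X = ⨆ j, ∫⁻ x in S j, u x * ENNReal.ofReal |x - c| ^ (-p) := by
        rw [← setLIntegral_iUnion_of_directed _ hmono.directed_le, hunion, hX]
        refine setLIntegral_congr ?_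
        have : (J \ {c} : Set ℝ) =ᵐ[volume] J := sdiff_null_ae_eq_self (by simp)
        exact this.symm
      rw [hXe, ENNReal.mul_iSup]
      exact iSup_le fun j => step _ (by positivity)
    have h8 : ENNReal.ofReal (1 / (2 * D / Mr)) ^ p * X ≤ C * ENNReal.ofReal Mr := by
      rw [one_div_div]
      exact hXall
    have h9 := cancel hp0 (by positivity : 0 < 2 * D / Mr) h8
    refine h9.trans (le_of_eq ?_)
    have hMne : ENNReal.ofReal Mr ≠ 0 := by
      rw [Ne, ENNReal.ofReal_eq_zero, not_le]
      exact hMrpos
    rw [← hMrF, ENNReal.ofReal_div_of_pos hMrpos, ENNReal.div_rpow_of_nonneg _ _ hp0.le,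
      sub_eq_add_neg, ENNReal.rpow_add _ _ hMne ENNReal.ofReal_ne_top, ENNReal.rpow_one,
      ENNReal.rpow_neg, div_eq_mul_inv]
    ring
  -- the limit in `n`
  have hlim : Tendsto (fun n => (C : ℝ≥0∞) * ENNReal.ofReal (2 * D) ^ p *
      (∫⁻ y, F n y) ^ (1 - p)) atTop (𝓝 (C * ENNReal.ofReal (2 * D) ^ p * M ^ (1 - p))) := by
    refine ENNReal.Tendsto.const_mul ?_ (Or.inr hCtop)
    exact (ENNReal.continuous_rpow_const.tendsto _).comp hMn
  have hev : ∀ᶠ n in atTop, (∫⁻ y, F n y) ≠ 0 := hMn.eventually_ne hM0
  refine ge_of_tendsto hlim ?_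
  filter_upwards [hev] with n hn
  exact main n hn

end Pool.Agent.Q129.HW
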